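import Pool.Agent.Y899.KP.Seg
import Pool.Agent.H678R3.BipUpper

/-!
Blow-ups of planar bipartite graphs: an upper bound for the crossing number
-/

set_option autoImplicit false
set_option linter.all false

namespace Pool.Agent.Y899.KP

open Pool.Agent.Helper770.Crossing Pool.Agent.Helper770.Straight Filter Topology Set
open Pool.Agent.H678R3.BipUpper (cls Pairs card_Pairs)

/-- cross product -/
def cp (u v : ℂ) : ℝ := u.re * v.im - u.im * v.re

/-- the blown-up bipartite graph -/
def blowG {X : Type} {n : ℕ} (hn : 0 < n) (A : Fin n → X → Prop) (q : ℕ) :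
    SimpleGraph (X ⊕ Fin q) where
  Adj x y := (∃ h k, x = Sum.inl h ∧ y = Sum.inr k ∧ A (cls hn k) h) ∨
    (∃ h k, y = Sum.inl h ∧ x = Sum.inr k ∧ A (cls hn k) h)
  symm := ⟨fun _ _ h => h.symm⟩
  loopless := ⟨fun x h => by
    rcases h with ⟨h, k, h1, h2, -⟩ | ⟨h, k, h1, h2, -⟩ <;> rw [h1] at h2 <;> exact Sum.inl_ne_inr h2⟩

variable {X : Type} [Fintype X] [DecidableEq X] {n : ℕ}

/-- two edges of the same cluster, drawn from points in the order of the direction -/
lemma Dj_cluster {a b x d : ℂ} {δ : ℝ} (hδ : 0 < δ)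
    (h : cp d (a - x) * cp d (b - (x + δ * d)) < 0 ∨
      cp d (a - x) * cp (a - x) (b - (x + δ * d)) < 0) : Dj a x b (x + δ * d) := by
  intro s hs t ht e
  have hx := congrArg Complex.re e
  have hy := congrArg Complex.im e
  simp only [seg, Complex.add_re, Complex.add_im, Complex.mul_re, Complex.mul_im,
    Complex.ofReal_re, Complex.ofReal_im, zero_mul, sub_zero, add_zero] at hx hy
  have hs' : 0 ≤ 1 - s := by linarith [hs.2]
  have ht' : 0 ≤ 1 - t := by linarith [ht.2]
  have e1 : δ * cp d (b - (x + δ * d)) = (1 - s) * cp (a - x) (b - (x + δ * d)) := by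
    simp only [cp, Complex.sub_re, Complex.sub_im, Complex.add_re, Complex.add_im, Complex.mul_re,
      Complex.mul_im, Complex.ofReal_re, Complex.ofReal_im, zero_mul, sub_zero, add_zero]
    linear_combination (-(b.im - (x.im + δ * d.im))) * hx + (b.re - (x.re + δ * d.re)) * hy
  have e2 : δ * cp d (a - x) = (1 - t) * cp (a - x) (b - (x + δ * d)) := by
    simp only [cp, Complex.sub_re, Complex.sub_im, Complex.add_re, Complex.add_im, Complex.mul_re,
      Complex.mul_im, Complex.ofReal_re, Complex.ofReal_im, zero_mul, sub_zero, add_zero]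
    linear_combination (-(a.im - x.im)) * hx + (a.re - x.re) * hy
  set C := cp (a - x) (b - (x + δ * d))
  rcases h with h | h
  · have : δ ^ 2 * (cp d (a - x) * cp d (b - (x + δ * d))) = ((1 - s) * (1 - t)) * C ^ 2 := by
      calc δ ^ 2 * (cp d (a - x) * cp d (b - (x + δ * d))) =
          (δ * cp d (a - x)) * (δ * cp d (b - (x + δ * d))) := by ring
        _ = _ := by rw [e1, e2]; ring
    have h1 : 0 ≤ ((1 - s) * (1 - t)) * C ^ 2 := by positivity
    have h2 : δ ^ 2 * (cp d (a - x) * cp d (b - (x + δ * d))) < 0 :=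
      mul_neg_of_pos_of_neg (by positivity) h
    linarith
  · have : δ * (cp d (a - x) * C) = (1 - t) * C ^ 2 := by
      calc δ * (cp d (a - x) * C) = (δ * cp d (a - x)) * C := by ring
        _ = _ := by rw [e2]; ring
    have h1 : 0 ≤ (1 - t) * C ^ 2 := by positivity
    have h2 : δ * (cp d (a - x) * C) < 0 := mul_neg_of_pos_of_neg hδ h
    linarith

theorem blow_upper (hn : 0 < n) (A : Fin n → X → Prop) (q r : ℕ) (hub : X → ℂ)
    (cen dir : Fin n → ℂ) (T : Fin n → Finset (X × X))
    (H1 : ∀ c c' h h', c ≠ c' → h ≠ h' → A c h → A c' h' →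
      Dj (hub h) (cen c) (hub h') (cen c'))
    (H3 : ∀ c h h', A c h → A c h' → h ≠ h' → (h, h') ∉ T c →
      cp (dir c) (hub h - cen c) * cp (dir c) (hub h' - cen c) < 0 ∨
      cp (dir c) (hub h - cen c) * cp (hub h - cen c) (hub h' - cen c) < 0)
    (hT : ∀ c, (T c).card ≤ r) :
    crossingNumber (blowG hn A q) ≤ r * ∑ y ∈ Finset.range q, y / n := by
  classical
  -- the points of the clusters
  let Z : ℝ → Fin q → ℂ := fun ε k => cen (cls hn k) + (ε * ((k.val / n : ℕ) : ℝ) : ℝ) * dir (cls hn k)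
  have hZc : ∀ k, Continuous fun ε => Z ε k := by
    intro k
    simp only [Z]
    fun_prop
  have hZ0 : ∀ k, Z 0 k = cen (cls hn k) := by
    intro k
    simp [Z]
  have ev : ∀ᶠ ε in 𝓝 (0 : ℝ), ∀ (h h' : X) (k k' : Fin q), h ≠ h' → k < k' → A (cls hn k) h →
      A (cls hn k') h' → (cls hn k ≠ cls hn k' → Dj (hub h) (Z ε k) (hub h') (Z ε k')) ∧
      (cls hn k = cls hn k' → (h, h') ∉ T (cls hn k) →
        cp (dir (cls hn k)) (hub h - Z ε k) * cp (dir (cls hn k)) (hub h' - Z ε k') < 0 ∨
        cp (dir (cls hn k)) (hub h - Z ε k) * cp (hub h - Z ε k) (hub h' - Z ε k') < 0) := by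
    rw [eventually_all]; intro h
    rw [eventually_all]; intro h'
    rw [eventually_all]; intro k
    rw [eventually_all]; intro k'
    by_cases c1 : h ≠ h' ∧ k < k' ∧ A (cls hn k) h ∧ A (cls hn k') h'
    · obtain ⟨hh, hk, hA, hA'⟩ := c1
      by_cases c2 : cls hn k = cls hn k'
      · by_cases c3 : (h, h') ∈ T (cls hn k)
        · exact Eventually.of_forall fun ε _ _ _ _ => ⟨fun h => absurd c2 h, fun _ h => absurd c3 h⟩
        · have h3 := H3 (cls hn k) h h' hA (by rw [c2]; exact hA') hh c3
          rcases h3 with h3 | h3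
          · have hc : Continuous fun ε => cp (dir (cls hn k)) (hub h - Z ε k) *
                cp (dir (cls hn k)) (hub h' - Z ε k') := by
              have := hZc k
              have := hZc k'
              simp only [cp]
              fun_prop
            have h0 : cp (dir (cls hn k)) (hub h - Z 0 k) *
                cp (dir (cls hn k)) (hub h' - Z 0 k') < 0 := by
              rw [hZ0, hZ0, ← c2]; exact h3
            exact (hc.continuousAt.eventually (gt_mem_nhds h0)).mono fun ε hε _ _ _ _ =>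
              ⟨fun h => absurd c2 h, fun _ _ => Or.inl hε⟩
          · have hc : Continuous fun ε => cp (dir (cls hn k)) (hub h - Z ε k) *
                cp (hub h - Z ε k) (hub h' - Z ε k') := by
              have := hZc k
              have := hZc k'
              simp only [cp]
              fun_prop
            have h0 : cp (dir (cls hn k)) (hub h - Z 0 k) *
                cp (hub h - Z 0 k) (hub h' - Z 0 k') < 0 := by
              rw [hZ0, hZ0, ← c2]; exact h3
            exact (hc.continuousAt.eventually (gt_mem_nhds h0)).mono fun ε hε _ _ _ _ =>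
              ⟨fun h => absurd c2 h, fun _ _ => Or.inr hε⟩
      · have h1 := H1 (cls hn k) (cls hn k') h h' c2 hh hA hA'
        have := Dj_eventually (f := fun _ => hub h) (g := fun ε => Z ε k) (h := fun _ => hub h')
          (k := fun ε => Z ε k') continuous_const (hZc k) continuous_const (hZc k') (x₀ := 0)
          (by rw [hZ0, hZ0]; exact h1)
        exact this.mono fun ε hε _ _ _ _ => ⟨fun _ => hε, fun h => absurd h c2⟩
    · exact Eventually.of_forall fun ε a b c d => absurd ⟨a, b, c, d⟩ c1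
  obtain ⟨δ, hδ, hδ'⟩ := Metric.eventually_nhds_iff.1 ev
  have hε := hδ' (y := δ / 2) (by rw [Real.dist_eq, sub_zero, abs_of_pos (by linarith)]; linarith)
  set ε := δ / 2 with hεdef
  have hε0 : 0 < ε := by rw [hεdef]; linarith
  clear_value ε
  -- the pairs of disjoint edges
  let z : X ⊕ Fin q → ℂ := Sum.elim hub (Z ε)
  let Q : X ⊕ Fin q → X ⊕ Fin q → X ⊕ Fin q → X ⊕ Fin q → Prop := fun a b c d =>
    ∃ h k h' k', a = Sum.inl h ∧ b = Sum.inr k ∧ c = Sum.inl h' ∧ d = Sum.inr k' ∧ h ≠ h' ∧
      k < k' ∧ A (cls hn k) h ∧ A (cls hn k') h' ∧ (cls hn k = cls hn k' → (h, h') ∉ T (cls hn k))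
  have hQ : ∀ a b c d, Q a b c d → Dj (z a) (z b) (z c) (z d) := by
    rintro _ _ _ _ ⟨h, k, h', k', rfl, rfl, rfl, rfl, hh, hk, hA, hA', hnT⟩
    show Dj (hub h) (Z ε k) (hub h') (Z ε k')
    obtain ⟨g1, g2⟩ := hε h h' k k' hh hk hA hA'
    by_cases c2 : cls hn k = cls hn k'
    · have g3 := g2 c2 (hnT c2)
      have hmod : k.val % n = k'.val % n := congrArg Fin.val c2
      have hdiv : k.val / n < k'.val / n := by
        have e1 := Nat.div_add_mod k.val n
        have e2 := Nat.div_add_mod k'.val n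
        by_contra hcon
        push Not at hcon
        have := Nat.mul_le_mul_left n hcon
        have : k.val < k'.val := hk
        omega
      have hδ2 : 0 < ε * (((k'.val / n : ℕ) : ℝ) - ((k.val / n : ℕ) : ℝ)) := by
        apply mul_pos hε0
        have : ((k.val / n : ℕ) : ℝ) < ((k'.val / n : ℕ) : ℝ) := by exact_mod_cast hdiv
        linarith
      have e : Z ε k' = Z ε k + (ε * (((k'.val / n : ℕ) : ℝ) - ((k.val / n : ℕ) : ℝ)) : ℝ) *
          dir (cls hn k) := by
        simp only [Z]
        rw [← c2]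
        push_cast
        ring
      rw [e] at g3 ⊢
      exact Dj_cluster hδ2 g3
    · exact g1 c2
  obtain ⟨P, hP, hPQ⟩ := perturb z Q hQ
  -- the candidates for crossings
  let S : Finset (Sym2 (Sym2 (X ⊕ Fin q))) := (Pairs q n).biUnion fun x =>
    (T (cls hn x.1)).image fun hh => s(s(Sum.inl hh.1, Sum.inr x.1), s(Sum.inl hh.2, Sum.inr x.2))
  have hS : S.card ≤ r * ∑ y ∈ Finset.range q, y / n := by
    refine Finset.card_biUnion_le.trans ?_
    refine (Finset.sum_le_card_nsmul _ _ r fun x _ => Finset.card_image_le.trans (hT _)).trans ?_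
    rw [smul_eq_mul, mul_comm]
    exact Nat.mul_le_mul_left _ (card_Pairs q n)
  have step : ∀ (h h' : X) (k k' : Fin q), h ≠ h' → k < k' → A (cls hn k) h → A (cls hn k') h' →
      ¬ Dj (P (Sum.inl h)) (P (Sum.inr k)) (P (Sum.inl h')) (P (Sum.inr k')) →
      s(s(Sum.inl h, Sum.inr k), s(Sum.inl h', Sum.inr k')) ∈ S := by
    intro h h' k k' hh hk hA hA' hD
    by_contra hn'
    apply hD
    apply hPQ
    refine ⟨h, k, h', k', rfl, rfl, rfl, rfl, hh, hk, hA, hA', fun c2 hT' => hn' ?_⟩
    simp only [S, Finset.mem_biUnion]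
    refine ⟨(k, k'), ?_, ?_⟩
    · simp only [Pairs, Finset.mem_filter, Finset.mem_univ, true_and]
      exact ⟨hk, congrArg Fin.val c2⟩
    · exact Finset.mem_image.2 ⟨(h, h'), hT', rfl⟩
  have step2 : ∀ (h h' : X) (k k' : Fin q), h ≠ h' → k ≠ k' → A (cls hn k) h → A (cls hn k') h' →
      ¬ Dj (P (Sum.inl h)) (P (Sum.inr k)) (P (Sum.inl h')) (P (Sum.inr k')) →
      s(s(Sum.inl h, Sum.inr k), s(Sum.inl h', Sum.inr k')) ∈ S := by
    intro h h' k k' hh hk hA hA' hD
    rcases lt_or_gt_of_ne hk with hlt | hlt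
    · exact step h h' k k' hh hlt hA hA' hD
    · rw [Sym2.eq_swap]
      exact step h' h k' k hh.symm hlt hA' hA fun hD' => hD hD'.symm
  have key := ncard_le (G := blowG hn A q) hP S (by
    intro x y u w hxy huw n1 n2 n3 n4 n5 n6 c1 c2
    have hD := inter_of_signs c1 c2
    rcases hxy with ⟨h, k, rfl, rfl, hA⟩ | ⟨h, k, rfl, rfl, hA⟩ <;>
    rcases huw with ⟨h', k', rfl, rfl, hA'⟩ | ⟨h', k', rfl, rfl, hA'⟩
    · exact step2 h h' k k' (fun e => n2 (by rw [e])) (fun e => n5 (by rw [e])) hA hA' hD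
    · rw [Sym2.eq_swap (a := Sum.inr k')]
      exact step2 h h' k k' (fun e => n3 (by rw [e])) (fun e => n4 (by rw [e])) hA hA'
        fun hD' => hD hD'.rev'
    · rw [Sym2.eq_swap (a := Sum.inr k)]
      exact step2 h h' k k' (fun e => n4 (by rw [e])) (fun e => n3 (by rw [e])) hA hA'
        fun hD' => hD hD'.rev
    · rw [Sym2.eq_swap (a := Sum.inr k), Sym2.eq_swap (a := Sum.inr k')]
      exact step2 h h' k k' (fun e => n5 (by rw [e])) (fun e => n2 (by rw [e])) hA hA'
        fun hD' => hD hD'.rev.rev')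
  exact (crossingNumber_le _ key.1).trans (key.2.trans hS)

end Pool.Agent.Y899.KP
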