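import Pool.Agent.Y899.KP.Sys

/-!
Nested triangles and nested quadrilaterals
-/

set_option autoImplicit false
set_option linter.all false

namespace Pool.Agent.Y899.KP

/-- nested triangles; faces `0, 1, 2` have two outer corners, `3, 4, 5` have one -/
def tri : Sys 3 6 where
  W := ![(12, 0), (0, 12), (-12, -12)]
  V := ![(-3, 0), (0, -3), (3, 3)]
  z := ![(-5, 0), (0, -5), (5, 5), (5, 0), (0, 5), (-5, -5)]
  d := ![(-1, -1), (-1, -1), (-1, 0), (-1, -1), (-1, -1), (-1, 0)]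
  out f p := if f.val < 3 then decide (p.val ≠ f.val) else decide (p.val + 3 = f.val)
  inn f p := if f.val < 3 then decide (p.val = f.val) else decide (p.val + 3 ≠ f.val)
  O := (36, 0)
  dO := (-4, 1)
  dI := (-1, 1)
  a := -1
  sep := ![![(0, 0, 0), (-4, 3, -12), (-4, 1, -12), (-1, 1, 0), (-4, 1, -12), (-4, 3, -12)],
    ![(3, -4, -12), (0, 0, 0), (1, -4, -12), (1, -4, -12), (0, -1, 0), (3, -4, -12)],
    ![(3, 1, -12), (1, 3, -12), (0, 0, 0), (1, 3, -12), (3, 1, -12), (1, 0, 0)],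
    ![(1, -1, 0), (-1, 4, 12), (-1, -3, 12), (0, 0, 0), (2, -1, -3), (2, -1, -3)],
    ![(4, -1, 12), (0, 1, 0), (-3, -1, 12), (-1, 2, -3), (0, 0, 0), (-1, 2, -3)],
    ![(4, -3, 12), (-3, 4, 12), (-1, 0, 0), (-1, -1, -3), (-1, -1, -3), (0, 0, 0)]]
  deep := ![(-2, 1, 6), (1, -2, 6), (1, 1, 6), (2, -1, 3), (-1, 2, 3), (-1, -1, 3)]
  outer := ![(1, -2, 12), (1, 1, 12), (1, -2, 12)]
  R := 12

/-- nested quadrilaterals -/
def sq : Sys 4 4 where
  W := ![(-24, -8), (-8, 8), (8, 8), (24, -8)]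
  V := ![(-6, -2), (-2, 2), (2, 2), (6, -2)]
  z := ![(-10, 0), (0, 5), (10, 0), (0, -5)]
  d := ![(-1, -1), (-1, 0), (-1, 0), (-1, -1)]
  out f p := decide (p = f ∨ p = f + 1)
  inn f p := decide (p = f ∨ p = f + 1)
  O := (0, 32)
  dO := (0, -1)
  dI := (-1, 0)
  a := 1
  sep := ![![(0, 0, 0), (-1, -1, 0), (-1, -1, 0), (-1, 3, 0)],
    ![(1, 1, 0), (0, 0, 0), (-1, 1, 0), (0, 1, -2)],
    ![(1, -1, 0), (1, -1, 0), (0, 0, 0), (1, 3, 0)],
    ![(1, -3, 0), (0, -1, -2), (-1, -3, 0), (0, 0, 0)]]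
  deep := ![(-1, 1, 4), (0, 1, 2), (1, 1, 4), (0, -1, 2)]
  outer := ![(-1, 1, 16), (0, 1, 8), (0, 1, 8), (1, 1, 16)]
  R := 8

theorem tri_valid : tri.Valid 1 where
  ha := by decide +kernel
  hV := by decide +kernel
  hW := by decide +kernel
  hsep := by decide +kernel
  hdeep := by decide +kernel
  houter := by decide +kernel
  hR := by decide +kernel
  hTF := by decide +kernel
  hTO := by decide +kernel
  hTI := by decide +kernel

theorem sq_valid : sq.Valid 2 where
  ha := by decide +kernel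
  hV := by decide +kernel
  hW := by decide +kernel
  hsep := by decide +kernel
  hdeep := by decide +kernel
  houter := by decide +kernel
  hR := by decide +kernel
  hTF := by decide +kernel
  hTO := by decide +kernel
  hTI := by decide +kernel

end Pool.Agent.Y899.KP
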