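import Pool.Agent.Y899.KP.Inst
import Pool.Agent.H571R3.Plane

/-!
The `k`-planar crossing numbers of `K_{3k,q}` and `K_{4k,q}`
-/

set_option autoImplicit false
set_option linter.all false

namespace Pool.Agent.Y899.KP

open Pool.Agent.Helper770.Crossing Pool.Agent.Helper770.Straight

/-- The `k`-planar crossing number: the least value of `cr(H₁) + ... + cr(H_k)` over all `k`-tuples
of spanning subgraphs of `G` whose union is `G`. -/
noncomputable def kcr {V : Type*} (k : ℕ) (G : SimpleGraph V) : ℕ :=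
  sInf {n | ∃ H : Fin k → SimpleGraph V, (⨆ i, H i) = G ∧ n = ∑ i, crossingNumber (H i)}

theorem kcr_attained {V : Type*} {k : ℕ} (hk : 1 ≤ k) (G : SimpleGraph V) :
    ∃ H : Fin k → SimpleGraph V, (⨆ i, H i) = G ∧ kcr k G = ∑ i, crossingNumber (H i) := by
  have : Nonempty (Fin k) := ⟨⟨0, hk⟩⟩
  have hne : {n | ∃ H : Fin k → SimpleGraph V, (⨆ i, H i) = G ∧
      n = ∑ i, crossingNumber (H i)}.Nonempty :=
    ⟨_, fun _ => G, by simp, rfl⟩
  exact Nat.sInf_mem hne

/-- the lower bound -/
theorem kcr_lower {p : ℕ} (hp : 3 ≤ p) {s : ℕ} (hs : 1 ≤ s) (q k : ℕ) :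
    k * ((p - 2 * s) * q) ≤ kcr s (completeBipartiteGraph (Fin p) (Fin q)) +
      s * (k * (k + 1) * (p - 2)) := by
  classical
  obtain ⟨H, hH, he⟩ := kcr_attained hs (completeBipartiteGraph (Fin p) (Fin q))
  rw [he]
  have hle : ∀ i, H i ≤ completeBipartiteGraph (Fin p) (Fin q) := fun i => by
    rw [← hH]; exact le_iSup H i
  have h1 : ∀ i, k * (∑ y : Fin q, ((Finset.univ.filter
      (fun a : Fin p => (H i).Adj (Sum.inl a) (Sum.inr y))).card - 2)) ≤
      crossingNumber (H i) + k * (k + 1) * (p - 2) := by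
    intro i
    apply H571R3.plane hp (H i)
    intro y y' h
    have := hle i h
    simp at this
  have h2 : ∀ y : Fin q, p - 2 * s ≤ ∑ i : Fin s, ((Finset.univ.filter
      (fun a : Fin p => (H i).Adj (Sum.inl a) (Sum.inr y))).card - 2) := by
    intro y
    have h3 : p ≤ ∑ i : Fin s, (Finset.univ.filter
        (fun a : Fin p => (H i).Adj (Sum.inl a) (Sum.inr y))).card := by
      have h4 : (Finset.univ : Finset (Fin p)) ⊆ (Finset.univ : Finset (Fin s)).biUnion
          fun i => Finset.univ.filter (fun a : Fin p => (H i).Adj (Sum.inl a) (Sum.inr y)) := by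
        intro a _
        have h5 : (⨆ i, H i).Adj (Sum.inl a) (Sum.inr y) := by
          rw [hH]; simp
        rw [SimpleGraph.iSup_adj] at h5
        obtain ⟨i, hi⟩ := h5
        rw [Finset.mem_biUnion]
        exact ⟨i, Finset.mem_univ _, Finset.mem_filter.2 ⟨Finset.mem_univ _, hi⟩⟩
      have h6 := (Finset.card_le_card h4).trans Finset.card_biUnion_le
      rwa [Finset.card_univ, Fintype.card_fin] at h6
    have h7 : ∑ i : Fin s, (Finset.univ.filter
        (fun a : Fin p => (H i).Adj (Sum.inl a) (Sum.inr y))).card ≤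
        ∑ i : Fin s, (((Finset.univ.filter
        (fun a : Fin p => (H i).Adj (Sum.inl a) (Sum.inr y))).card - 2) + 2) :=
      Finset.sum_le_sum fun i _ => by omega
    rw [Finset.sum_add_distrib, Finset.sum_const, Finset.card_univ, Fintype.card_fin,
      smul_eq_mul] at h7
    omega
  calc k * ((p - 2 * s) * q) = k * ∑ y : Fin q, (p - 2 * s) := by
        rw [Finset.sum_const, Finset.card_univ, Fintype.card_fin, smul_eq_mul, mul_comm q]
    _ ≤ k * ∑ y : Fin q, ∑ i : Fin s, ((Finset.univ.filter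
        (fun a : Fin p => (H i).Adj (Sum.inl a) (Sum.inr y))).card - 2) :=
        Nat.mul_le_mul_left _ (Finset.sum_le_sum fun y _ => h2 y)
    _ = ∑ i : Fin s, k * (∑ y : Fin q, ((Finset.univ.filter
        (fun a : Fin p => (H i).Adj (Sum.inl a) (Sum.inr y))).card - 2)) := by
        rw [Finset.sum_comm, Finset.mul_sum]
    _ ≤ ∑ i : Fin s, (crossingNumber (H i) + k * (k + 1) * (p - 2)) :=
        Finset.sum_le_sum fun i _ => h1 i
    _ = _ := by
        rw [Finset.sum_add_distrib, Finset.sum_const, Finset.card_univ, Fintype.card_fin,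
          smul_eq_mul]

section Upper

variable {nc nf : ℕ} {S : Sys nc nf} {r : ℕ}

lemma card_Cl (m nf : ℕ) : Fintype.card (Cl m nf) = m * nf + 2 := by
  simp [Cl]

/-- the renumbering of the hubs in the plane `i` -/
def rel (sh : ℕ → Fin nc → Fin nc) (m : ℕ) (i : Fin (m + 1)) (h : Fin (nc * (m + 1))) :
    Fin (m + 1) × Fin nc :=
  let x := finProdFinEquiv.symm h
  (x.2 - i, sh ((x.2 - i : Fin (m + 1)) : ℕ) x.1)

lemma rel_inj {sh : ℕ → Fin nc → Fin nc} (hsh : ∀ l, Function.Injective (sh l)) (m : ℕ)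
    (i : Fin (m + 1)) : Function.Injective (rel sh m i) := by
  intro h h' e
  simp only [rel, Prod.mk.injEq] at e
  obtain ⟨e1, e2⟩ := e
  have e3 : (finProdFinEquiv.symm h).2 = (finProdFinEquiv.symm h').2 := sub_left_injective e1
  rw [e3] at e2
  have e4 := hsh _ e2
  exact finProdFinEquiv.symm.injective (Prod.ext e4 e3)

/-- the embedding of the vertex set of the complete bipartite graph in the plane `i` -/
def relE (sh : ℕ → Fin nc → Fin nc) (hsh : ∀ l, Function.Injective (sh l)) (m q : ℕ)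
    (i : Fin (m + 1)) : (Fin (nc * (m + 1)) ⊕ Fin q) ↪ ((Fin (m + 1) × Fin nc) ⊕ Fin q) :=
  ⟨Sum.map (rel sh m i) id, Sum.map_injective.2 ⟨rel_inj hsh m i, Function.injective_id⟩⟩

theorem kcr_upper (hS : S.Valid r) (sh : ℕ → Fin nc → Fin nc)
    (hsh : ∀ l, Function.Injective (sh l))
    (hcov : ∀ l c f, S.out f (sh l c) = true ∨ S.inn f (sh (l + 1) c) = true) (m q : ℕ) :
    kcr (m + 1) (completeBipartiteGraph (Fin (nc * (m + 1))) (Fin q)) ≤
      (m + 1) * (r * ∑ y ∈ Finset.range q, y / (m * nf + 2)) := by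
  have hn : 0 < m * nf + 2 := by omega
  let e : Fin (m * nf + 2) ≃ Cl m nf := (Fintype.equivFinOfCardEq (card_Cl m nf)).symm
  let G := blowG hn (fun c => S.I m (e c)) q
  have hG : crossingNumber G ≤ r * ∑ y ∈ Finset.range q, y / (m * nf + 2) :=
    Sys.upper hS m hn e e.injective q
  -- every class has a hub of every colour
  have hcol : ∀ (c : Cl m nf) (x : Fin nc), ∃ l : Fin (m + 1), S.I m c (l, sh l x) := by
    intro c x
    match c with
    | none => exact ⟨0, rfl⟩
    | some none => exact ⟨Fin.last m, rfl⟩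
    | some (some y) =>
      rcases hcov y.1 x y.2 with h | h
      · exact ⟨y.1.castSucc, Or.inl ⟨rfl, by simpa using h⟩⟩
      · exact ⟨y.1.succ, Or.inr ⟨rfl, by simpa using h⟩⟩
  have h1 : kcr (m + 1) (completeBipartiteGraph (Fin (nc * (m + 1))) (Fin q)) ≤
      ∑ i : Fin (m + 1), crossingNumber (G.comap (relE sh hsh m q i)) := by
    apply Nat.sInf_le
    refine ⟨fun i => G.comap (relE sh hsh m q i), ?_, rfl⟩
    ext x y
    rw [SimpleGraph.iSup_adj]
    constructor
    · rintro ⟨i, hi⟩
      rcases hi with ⟨h, k, h1, h2, -⟩ | ⟨h, k, h1, h2, -⟩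
      · rcases x with x | x <;> rcases y with y | y <;> simp [relE] at h1 h2 ⊢
      · rcases x with x | x <;> rcases y with y | y <;> simp [relE] at h1 h2 ⊢
    · have key : ∀ (h : Fin (nc * (m + 1))) (k : Fin q), ∃ i : Fin (m + 1),
          G.Adj (relE sh hsh m q i (Sum.inl h)) (relE sh hsh m q i (Sum.inr k)) := by
        intro h k
        obtain ⟨l, hl⟩ := hcol (e (Pool.Agent.H678R3.BipUpper.cls hn k)) (finProdFinEquiv.symm h).1
        refine ⟨(finProdFinEquiv.symm h).2 - l, Or.inl ⟨_, k, rfl, rfl, ?_⟩⟩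
        show S.I m _ (rel sh m ((finProdFinEquiv.symm h).2 - l) h)
        have e1 : rel sh m ((finProdFinEquiv.symm h).2 - l) h =
            (l, sh l (finProdFinEquiv.symm h).1) := by
          simp only [rel, sub_sub_cancel]
        rw [e1]
        exact hl
      intro hxy
      rcases x with x | x <;> rcases y with y | y
      · simp at hxy
      · exact key x y
      · obtain ⟨i, hi⟩ := key y x
        exact ⟨i, hi.symm⟩
      · simp at hxy
  refine h1.trans ?_
  calc ∑ i : Fin (m + 1), crossingNumber (G.comap (relE sh hsh m q i)) ≤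
        ∑ i : Fin (m + 1), (r * ∑ y ∈ Finset.range q, y / (m * nf + 2)) :=
        Finset.sum_le_sum fun i _ => (crossingNumber_comap G _).trans hG
    _ = _ := by
        rw [Finset.sum_const, Finset.card_univ, Fintype.card_fin, smul_eq_mul]

end Upper

lemma sum_div {n : ℕ} (hn : 0 < n) (q : ℕ) :
    2 * ((∑ y ∈ Finset.range q, y / n : ℕ) : ℤ) =
      ((q / n : ℕ) : ℤ) * (2 * q - n * (((q / n : ℕ) : ℤ) + 1)) := by
  induction q with
  | zero => simp
  | succ q ih =>
    rw [Finset.sum_range_succ]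
    push_cast [Nat.succ_div] at ih ⊢
    rw [mul_add, ih]
    by_cases h : n ∣ q + 1
    · obtain ⟨t, ht⟩ := h
      have hd : q / n = t - 1 := by
        rcases t with _ | t
        · omega
        · have : q = n * t + (n - 1) := by
            have : q + 1 = n * t + n := by rw [ht]; ring
            omega
          rw [this, Nat.mul_add_div hn, Nat.div_eq_of_lt (by omega)]
          omega
      have ht1 : 1 ≤ t := by
        rcases t with _ | t
        · omega
        · omega
      have hq : (q : ℤ) = n * t - 1 := by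
        have : ((q + 1 : ℕ) : ℤ) = ((n * t : ℕ) : ℤ) := by rw [ht]
        push_cast at this
        linarith
      have hd' : (q : ℤ) / n = t - 1 := by
        have : ((q / n : ℕ) : ℤ) = ((t - 1 : ℕ) : ℤ) := by rw [hd]
        push_cast [Nat.cast_sub ht1] at this
        exact this
      rw [if_pos ⟨t, ht⟩, hd', hq]
      push_cast
      ring
    · rw [if_neg h]
      push_cast
      ring

/-- **The `s`-planar crossing number of `K_{3s,q}`.** -/
theorem three (s q : ℕ) (hs : 1 ≤ s) :
    (kcr s (completeBipartiteGraph (Fin (3 * s)) (Fin q)) : ℤ) =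
      s * ((q / (6 * s - 4) : ℕ) : ℤ) *
        (q - (3 * s - 2) * (((q / (6 * s - 4) : ℕ) : ℤ) + 1)) := by
  obtain ⟨m, rfl⟩ : ∃ m, s = m + 1 := ⟨s - 1, by omega⟩
  have hN : m * 6 + 2 = 6 * (m + 1) - 4 := by omega
  have hu := kcr_upper tri_valid (fun _ c => c) (fun _ => Function.injective_id)
    (by
      intro l c f
      revert c f
      decide) m q
  rw [hN] at hu
  have hs2 := sum_div (n := 6 * (m + 1) - 4) (by omega) q
  have hl := kcr_lower (p := 3 * (m + 1)) (by omega) (s := m + 1) (by omega) q (q / (6 * (m + 1) - 4))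
  have e1 : 3 * (m + 1) - 2 * (m + 1) = m + 1 := by omega
  rw [e1] at hl
  have e2 : ((6 * (m + 1) - 4 : ℕ) : ℤ) = 6 * m + 2 := by
    have : 6 * (m + 1) - 4 = 6 * m + 2 := by omega
    rw [this]; push_cast; ring
  have e3 : ((3 * (m + 1) - 2 : ℕ) : ℤ) = 3 * m + 1 := by
    have : 3 * (m + 1) - 2 = 3 * m + 1 := by omega
    rw [this]; push_cast; ring
  set k := q / (6 * (m + 1) - 4) with hk
  set Sg := ∑ y ∈ Finset.range q, y / (6 * (m + 1) - 4)
  set K := kcr (m + 1) (completeBipartiteGraph (Fin (3 * (m + 1))) (Fin q))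
  rw [e2] at hs2
  have hu' : (K : ℤ) ≤ (m + 1) * (Sg : ℤ) := by
    have : ((K : ℕ) : ℤ) ≤ (((m + 1) * (1 * Sg) : ℕ) : ℤ) := by exact_mod_cast hu
    push_cast at this
    linarith
  have hl' : (k : ℤ) * ((m + 1) * q) ≤ K + (m + 1) * (k * (k + 1) * (3 * m + 1)) := by
    have : ((k * ((m + 1) * q) : ℕ) : ℤ) ≤
        ((K + (m + 1) * (k * (k + 1) * (3 * (m + 1) - 2)) : ℕ) : ℤ) := by exact_mod_cast hl
    rw [Nat.cast_add, Nat.cast_mul (m + 1), Nat.cast_mul (k * (k + 1)), e3] at this
    push_cast at this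
    exact this
  have e4 : (Sg : ℤ) = (k : ℤ) * (q - (3 * m + 1) * (k + 1)) := by linarith
  rw [e4] at hu'
  push_cast
  apply le_antisymm
  · calc (K : ℤ) ≤ _ := hu'
      _ = _ := by ring
  · linarith

/-- **The `s`-planar crossing number of `K_{4s,q}`.** -/
theorem four (s q : ℕ) (hs : 1 ≤ s) :
    (kcr s (completeBipartiteGraph (Fin (4 * s)) (Fin q)) : ℤ) =
      2 * s * ((q / (4 * s - 2) : ℕ) : ℤ) *
        (q - (2 * s - 1) * (((q / (4 * s - 2) : ℕ) : ℤ) + 1)) := by
  obtain ⟨m, rfl⟩ : ∃ m, s = m + 1 := ⟨s - 1, by omega⟩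
  have hN : m * 4 + 2 = 4 * (m + 1) - 2 := by omega
  have hu := kcr_upper sq_valid (fun l c => if l % 2 = 0 then c else c + 2)
    (fun l => by
      rcases Nat.mod_two_eq_zero_or_one l with h | h
      · simp only [h, if_true]
        exact Function.injective_id
      · simp only [h, one_ne_zero, if_false]
        exact add_left_injective _)
    (by
      intro l c f
      have h : ∀ (c f : Fin 4), (sq.out f c = true ∨ sq.inn f (c + 2) = true) ∧
          (sq.out f (c + 2) = true ∨ sq.inn f c = true) := by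
        decide
      rcases Nat.mod_two_eq_zero_or_one l with h1 | h1
      · have h2 : (l + 1) % 2 = 1 := by omega
        simp only [h1, h2, if_true, one_ne_zero, if_false]
        exact (h c f).1
      · have h2 : (l + 1) % 2 = 0 := by omega
        simp only [h1, h2, if_true, one_ne_zero, if_false]
        exact (h c f).2) m q
  rw [hN] at hu
  have hs2 := sum_div (n := 4 * (m + 1) - 2) (by omega) q
  have hl := kcr_lower (p := 4 * (m + 1)) (by omega) (s := m + 1) (by omega) q (q / (4 * (m + 1) - 2))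
  have e1 : 4 * (m + 1) - 2 * (m + 1) = 2 * (m + 1) := by omega
  rw [e1] at hl
  have e2 : ((4 * (m + 1) - 2 : ℕ) : ℤ) = 4 * m + 2 := by
    have : 4 * (m + 1) - 2 = 4 * m + 2 := by omega
    rw [this]; push_cast; ring
  set k := q / (4 * (m + 1) - 2) with hk
  set Sg := ∑ y ∈ Finset.range q, y / (4 * (m + 1) - 2)
  set K := kcr (m + 1) (completeBipartiteGraph (Fin (4 * (m + 1))) (Fin q))
  rw [e2] at hs2
  have hu' : (K : ℤ) ≤ (m + 1) * (2 * (Sg : ℤ)) := by
    have : ((K : ℕ) : ℤ) ≤ (((m + 1) * (2 * Sg) : ℕ) : ℤ) := by exact_mod_cast hu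
    push_cast at this
    linarith
  have hl' : (k : ℤ) * (2 * (m + 1) * q) ≤ K + (m + 1) * (k * (k + 1) * (4 * m + 2)) := by
    have : ((k * (2 * (m + 1) * q) : ℕ) : ℤ) ≤
        ((K + (m + 1) * (k * (k + 1) * (4 * (m + 1) - 2)) : ℕ) : ℤ) := by exact_mod_cast hl
    rw [Nat.cast_add, Nat.cast_mul (m + 1), Nat.cast_mul (k * (k + 1)), e2] at this
    push_cast at this
    exact this
  have e4 : (Sg : ℤ) = (k : ℤ) * (q - (2 * m + 1) * (k + 1)) := by linarith
  rw [e4] at hu'
  push_cast
  apply le_antisymm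
  · calc (K : ℤ) ≤ _ := hu'
      _ = _ := by ring
  · linarith

end Pool.Agent.Y899.KP
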