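import Pool.Agent.Helper770.Straight

/-!
Disjoint segments, perturbation into general position
-/

set_option autoImplicit false
set_option linter.all false

namespace Pool.Agent.Y899.KP

open Pool.Agent.Helper770.Crossing Pool.Agent.Helper770.Straight Filter Topology Set

/-- two closed segments are disjoint -/
def Dj (a x b y : ℂ) : Prop := ∀ s ∈ Icc (0 : ℝ) 1, ∀ t ∈ Icc (0 : ℝ) 1, seg a x s ≠ seg b y t

/-- crossing signs give a common point -/
lemma inter_of_signs {a b c d : ℂ} (h1 : ori a b c * ori a b d < 0)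
    (h2 : ori c d a * ori c d b < 0) : ¬ Dj a b c d := by
  intro h
  have e1 : ori c d a - ori c d b = -(ori a b c - ori a b d) := by
    simp only [ori]; ring
  set α := ori c d a with hα
  set β := ori c d b with hβ
  set γ := ori a b c with hγ
  set δ := ori a b d with hδ
  have hD : α - β ≠ 0 := by
    intro h0
    have : α = β := by linarith
    rw [this] at h2
    nlinarith [mul_self_nonneg β]
  have hs : α / (α - β) ∈ Icc (0 : ℝ) 1 := by
    rcases mul_neg_iff.1 h2 with ⟨p1, p2⟩ | ⟨p1, p2⟩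
    · constructor
      · apply div_nonneg <;> linarith
      · rw [div_le_one (by linarith)]; linarith
    · constructor
      · apply div_nonneg_of_nonpos <;> linarith
      · rw [div_le_one_of_neg (by linarith)]; linarith
  have ht : γ / (γ - δ) ∈ Icc (0 : ℝ) 1 := by
    rcases mul_neg_iff.1 h1 with ⟨p1, p2⟩ | ⟨p1, p2⟩
    · constructor
      · apply div_nonneg <;> linarith
      · rw [div_le_one (by linarith)]; linarith
    · constructor
      · apply div_nonneg_of_nonpos <;> linarith
      · rw [div_le_one_of_neg (by linarith)]; linarith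
  have hE : γ - δ ≠ 0 := by
    intro h0
    rw [h0] at e1
    exact hD (by linarith)
  have hE' : γ - δ = -(α - β) := by linarith
  apply h _ hs _ ht
  apply Complex.ext
  · simp only [seg]
    rw [hE']
    have hD' : -(α - β) ≠ 0 := neg_ne_zero.2 hD
    field_simp
    simp only [hα, hβ, hγ, ori]
    ring
  · simp only [seg]
    rw [hE']
    have hD' : -(α - β) ≠ 0 := neg_ne_zero.2 hD
    field_simp
    simp only [hα, hβ, hγ, ori]
    ring

/-- separation by a line -/
lemma Dj_of_sep {a x b y : ℂ} (α β γ : ℝ) (h1 : 0 ≤ α * a.re + β * a.im + γ)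
    (h2 : 0 < α * x.re + β * x.im + γ) (h3 : α * b.re + β * b.im + γ ≤ 0)
    (h4 : α * y.re + β * y.im + γ < 0) (hab : a ≠ b) : Dj a x b y := by
  intro s hs t ht h
  have hx := congrArg Complex.re h
  have hy := congrArg Complex.im h
  simp only [seg] at hx hy
  have e1 : (1 - s) * (α * a.re + β * a.im + γ) + s * (α * x.re + β * x.im + γ) =
      (1 - t) * (α * b.re + β * b.im + γ) + t * (α * y.re + β * y.im + γ) := by
    linear_combination α * hx + β * hy
  have p1 : 0 ≤ (1 - s) * (α * a.re + β * a.im + γ) := mul_nonneg (by linarith [hs.2]) h1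
  have p2 : 0 ≤ s * (α * x.re + β * x.im + γ) := mul_nonneg hs.1 h2.le
  have p3 : (1 - t) * (α * b.re + β * b.im + γ) ≤ 0 :=
    mul_nonpos_of_nonneg_of_nonpos (by linarith [ht.2]) h3
  have p4 : t * (α * y.re + β * y.im + γ) ≤ 0 := mul_nonpos_of_nonneg_of_nonpos ht.1 h4.le
  have q1 : s * (α * x.re + β * x.im + γ) = 0 := by linarith
  have q2 : t * (α * y.re + β * y.im + γ) = 0 := by linarith
  have hs0 : s = 0 := by
    rcases mul_eq_zero.1 q1 with h5 | h5
    · exact h5
    · exact absurd h5 h2.ne'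
  have ht0 : t = 0 := by
    rcases mul_eq_zero.1 q2 with h5 | h5
    · exact h5
    · exact absurd h5 h4.ne
  apply hab
  rw [hs0, ht0, seg_zero, seg_zero] at h
  exact h

lemma Dj.symm {a x b y : ℂ} (h : Dj a x b y) : Dj b y a x :=
  fun s hs t ht e => h t ht s hs e.symm

lemma Dj.rev {a x b y : ℂ} (h : Dj a x b y) : Dj x a b y := by
  intro s hs t ht e
  rw [seg_comm] at e
  exact h (1 - s) ⟨by linarith [hs.2], by linarith [hs.1]⟩ t ht e

lemma Dj.rev' {a x b y : ℂ} (h : Dj a x b y) : Dj a x y b := (h.symm.rev).symm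

/-- disjointness of closed segments is stable -/
lemma Dj_eventually {f g h k : ℝ → ℂ} (hf : Continuous f) (hg : Continuous g) (hh : Continuous h)
    (hk : Continuous k) {x₀ : ℝ} (h0 : Dj (f x₀) (g x₀) (h x₀) (k x₀)) :
    ∀ᶠ x in 𝓝 x₀, Dj (f x) (g x) (h x) (k x) := by
  have hK : IsCompact (Icc (0 : ℝ) 1 ×ˢ Icc (0 : ℝ) 1) := isCompact_Icc.prod isCompact_Icc
  have key : ∀ᶠ x in 𝓝 x₀, ∀ y ∈ (Icc (0 : ℝ) 1 ×ˢ Icc (0 : ℝ) 1),
      seg (f x) (g x) y.1 ≠ seg (h x) (k x) y.2 := by
    apply hK.eventually_forall_of_forall_eventually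
    rintro ⟨s, t⟩ ⟨hs, ht⟩
    have hc : Continuous (fun z : ℝ × (ℝ × ℝ) =>
        seg (f z.1) (g z.1) z.2.1 - seg (h z.1) (k z.1) z.2.2) := by
      have e : (fun z : ℝ × (ℝ × ℝ) => seg (f z.1) (g z.1) z.2.1 - seg (h z.1) (k z.1) z.2.2) =
          fun z : ℝ × (ℝ × ℝ) => ((1 - (z.2.1 : ℂ)) * f z.1 + z.2.1 * g z.1) -
            ((1 - (z.2.2 : ℂ)) * h z.1 + z.2.2 * k z.1) := by
        funext z
        apply Complex.ext <;> simp [seg]
      rw [e]
      fun_prop
    have hne : seg (f x₀) (g x₀) s - seg (h x₀) (k x₀) t ≠ 0 := sub_ne_zero.2 (h0 s hs t ht)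
    have := hc.continuousAt.eventually_ne (x := (x₀, (s, t))) hne
    exact this.mono fun z hz e => hz (sub_eq_zero.2 e)
  exact key.mono fun x hx s hs t ht => hx (s, t) ⟨hs, ht⟩

/-- perturbation into general position -/
theorem perturb {W : Type*} [Finite W] (z : W → ℂ) (Q : W → W → W → W → Prop)
    (hQ : ∀ a b c d, Q a b c d → Dj (z a) (z b) (z c) (z d)) :
    ∃ P : W → ℂ, GenPos P ∧ ∀ a b c d, Q a b c d → Dj (P a) (P b) (P c) (P d) := by
  classical
  obtain ⟨N, ⟨e⟩⟩ := Finite.exists_equiv_fin W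
  let τ : W → ℝ := fun w => ((e w : ℕ) : ℝ)
  have hτ : ∀ a b, a ≠ b → τ a ≠ τ b := by
    intro a b hab h
    apply hab
    apply e.injective
    apply Fin.ext
    have h' : ((e a : ℕ) : ℝ) = ((e b : ℕ) : ℝ) := h
    exact_mod_cast h'
  let P : ℝ → W → ℂ := fun η w => ⟨(z w).re + η * τ w, (z w).im + η * τ w ^ 2⟩
  have hP0 : ∀ w, P 0 w = z w := fun w => by apply Complex.ext <;> simp [P]
  have hPc : ∀ w, Continuous fun η => P η w := by
    intro w
    have : (fun η => P η w) = fun η : ℝ => z w + η * (⟨τ w, τ w ^ 2⟩ : ℂ) := by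
      funext η
      apply Complex.ext <;> simp [P]
    rw [this]
    fun_prop
  -- the segments stay disjoint
  have h1 : ∀ᶠ η in 𝓝 (0 : ℝ), ∀ a b c d, Q a b c d → Dj (P η a) (P η b) (P η c) (P η d) := by
    rw [eventually_all]; intro a
    rw [eventually_all]; intro b
    rw [eventually_all]; intro c
    rw [eventually_all]; intro d
    by_cases h : Q a b c d
    · have := Dj_eventually (hPc a) (hPc b) (hPc c) (hPc d) (x₀ := 0)
        (by rw [hP0, hP0, hP0, hP0]; exact hQ a b c d h)
      exact this.mono fun η hη _ => hη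
    · exact Eventually.of_forall fun η hh => absurd hh h
  obtain ⟨δ, hδ, hδ'⟩ := Metric.eventually_nhds_iff.1 h1
  -- the bad parameters
  let B1 : Set ℝ := {η | ∃ a b c, a ≠ b ∧ c ≠ a ∧ c ≠ b ∧ ori (P η a) (P η b) (P η c) = 0}
  let B2 : Set ℝ := {η | ∃ a b, a ≠ b ∧ P η a = P η b}
  have hB1 : B1.Finite := by
    have : B1 ⊆ ⋃ a : W, ⋃ b : W, ⋃ c : W,
        {η | (a ≠ b ∧ c ≠ a ∧ c ≠ b) ∧ ori (P η a) (P η b) (P η c) = 0} := by
      rintro η ⟨a, b, c, h1, h2, h3, h4⟩
      simp only [mem_iUnion]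
      exact ⟨a, b, c, ⟨h1, h2, h3⟩, h4⟩
    refine Set.Finite.subset ?_ this
    refine finite_iUnion fun a => finite_iUnion fun b => finite_iUnion fun c => ?_
    by_cases hd : a ≠ b ∧ c ≠ a ∧ c ≠ b
    · obtain ⟨h1, h2, h3⟩ := hd
      -- a nonzero quadratic polynomial
      set A := ori (z a) (z b) (z c) with hA
      set C := (τ b - τ a) * (τ c - τ a) * (τ c - τ b) with hC
      have hC0 : C ≠ 0 := by
        rw [hC]
        exact mul_ne_zero (mul_ne_zero (sub_ne_zero.2 (hτ b a h1.symm)) (sub_ne_zero.2 (hτ c a h2)))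
          (sub_ne_zero.2 (hτ c b h3))
      set L := ((z b).re - (z a).re) * (τ c ^ 2 - τ a ^ 2) + (τ b - τ a) * ((z c).im - (z a).im) -
        ((z b).im - (z a).im) * (τ c - τ a) - (τ b ^ 2 - τ a ^ 2) * ((z c).re - (z a).re) with hL
      have hp : ∀ η, ori (P η a) (P η b) (P η c) = C * η ^ 2 + L * η + A := by
        intro η
        simp only [ori, P, hA, hC, hL]
        ring
      let p : Polynomial ℝ := Polynomial.C C * Polynomial.X ^ 2 + Polynomial.C L * Polynomial.X +
        Polynomial.C A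
      have hp0 : p ≠ 0 := by
        intro h
        have := congrArg (fun q => Polynomial.coeff q 2) h
        simp only [p, Polynomial.coeff_add, Polynomial.coeff_C_mul, Polynomial.coeff_X_pow,
          Polynomial.coeff_X, Polynomial.coeff_C, Polynomial.coeff_zero] at this
        norm_num at this
        exact hC0 this
      refine (p.roots.toFinset.finite_toSet).subset ?_
      rintro η ⟨-, hη⟩
      rw [Finset.mem_coe, Multiset.mem_toFinset, Polynomial.mem_roots hp0, Polynomial.IsRoot.def]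
      simp only [p, Polynomial.eval_add, Polynomial.eval_mul, Polynomial.eval_C,
        Polynomial.eval_pow, Polynomial.eval_X]
      rw [← hp η]; exact hη
    · refine Set.finite_empty.subset ?_
      rintro η ⟨h, -⟩
      exact absurd h hd
  have hB2 : B2.Finite := by
    have : B2 ⊆ ⋃ a : W, ⋃ b : W, {η | a ≠ b ∧ P η a = P η b} := by
      rintro η ⟨a, b, h1, h2⟩
      simp only [mem_iUnion]
      exact ⟨a, b, h1, h2⟩
    refine Set.Finite.subset ?_ this
    refine finite_iUnion fun a => finite_iUnion fun b => ?_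
    by_cases hd : a = b
    · refine Set.finite_empty.subset ?_
      rintro η ⟨h, -⟩
      exact absurd hd h
    · refine (Set.finite_singleton (((z b).re - (z a).re) / (τ a - τ b))).subset ?_
      rintro η ⟨-, h⟩
      have := congrArg Complex.re h
      simp only [P] at this
      rw [mem_singleton_iff, eq_div_iff (sub_ne_zero.2 (hτ a b hd))]
      linarith
  have hinf : (Ioo (0 : ℝ) δ \ (B1 ∪ B2)).Nonempty := by
    have h2 : (Ioo (0 : ℝ) δ).Infinite := Ioo_infinite hδ
    exact (h2.diff (hB1.union hB2)).nonempty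
  obtain ⟨η, ⟨hη0, hηδ⟩, hηB⟩ := hinf
  rw [mem_union, not_or] at hηB
  refine ⟨P η, ⟨?_, ?_⟩, ?_⟩
  · intro a b hab
    by_contra hne
    exact hηB.2 ⟨a, b, hne, hab⟩
  · intro a b c h1 h2 h3 h4
    exact hηB.1 ⟨a, b, c, h1, h2, h3, h4⟩
  · exact hδ' (by rw [Real.dist_eq, sub_zero, abs_of_pos hη0]; exact hηδ)

end Pool.Agent.Y899.KP
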