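import Pool.Agent.Y899.KP.Blow

/-!
Nested polygons: planar quadrangulations of arbitrary depth given by finitely many integers
-/

set_option autoImplicit false
set_option linter.all false

namespace Pool.Agent.Y899.KP

open Pool.Agent.Helper770.Crossing Pool.Agent.Helper770.Straight Filter Topology Set

/-- integer data of a self-similar system of nested polygons -/
structure Sys (nc nf : ℕ) where
  /-- corners of the outer polygon -/
  W : Fin nc → ℤ × ℤ
  /-- corners of the next polygon -/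
  V : Fin nc → ℤ × ℤ
  /-- centres of the faces between them -/
  z : Fin nf → ℤ × ℤ
  /-- directions at the centres -/
  d : Fin nf → ℤ × ℤ
  /-- corners of the faces on the outer polygon -/
  out : Fin nf → Fin nc → Bool
  /-- corners of the faces on the inner polygon -/
  inn : Fin nf → Fin nc → Bool
  /-- the outer point -/
  O : ℤ × ℤ
  /-- direction at the outer point -/
  dO : ℤ × ℤ
  /-- direction at the inner point -/
  dI : ℤ × ℤ
  /-- the sign of the scaling factor -/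
  a : ℤ
  /-- lines separating two faces -/
  sep : Fin nf → Fin nf → ℤ × ℤ × ℤ
  /-- lines separating a face from the inner polygon -/
  deep : Fin nf → ℤ × ℤ × ℤ
  /-- supporting lines of the outer polygon -/
  outer : Fin nc → ℤ × ℤ × ℤ
  /-- size of the outer polygon -/
  R : ℤ

/-- value of the linear part -/
def Lf (g : ℤ × ℤ × ℤ) (u : ℤ × ℤ) : ℤ := g.1 * u.1 + g.2.1 * u.2

/-- integer cross product -/
def cz (u v : ℤ × ℤ) : ℤ := u.1 * v.2 - u.2 * v.1

/-- the edges to the corners in the directions `u` and `v` may cross -/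
def Bad (d u v : ℤ × ℤ) : Prop := ¬ (cz d u * cz d v < 0 ∨ cz d u * cz u v < 0)

instance (d u v : ℤ × ℤ) : Decidable (Bad d u v) := by unfold Bad; infer_instance

variable {nc nf : ℕ}

/-- corners of the annulus -/
def Sys.cor (S : Sys nc nf) (x : Bool × Fin nc) : ℤ × ℤ := if x.1 then S.V x.2 else S.W x.2

/-- corners of a face -/
def Sys.inc (S : Sys nc nf) (f : Fin nf) (x : Bool × Fin nc) : Bool :=
  if x.1 then S.inn f x.2 else S.out f x.2

/-- bad pairs at a face -/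
def Sys.TF (S : Sys nc nf) (f : Fin nf) : Finset ((Bool × Fin nc) × (Bool × Fin nc)) :=
  Finset.univ.filter fun x => S.inc f x.1 = true ∧ S.inc f x.2 = true ∧ x.1 ≠ x.2 ∧
    Bad (S.d f) (S.cor x.1 - S.z f) (S.cor x.2 - S.z f)

/-- bad pairs at the outer point -/
def Sys.TO (S : Sys nc nf) : Finset (Fin nc × Fin nc) :=
  Finset.univ.filter fun x => x.1 ≠ x.2 ∧ Bad S.dO (S.W x.1 - S.O) (S.W x.2 - S.O)

/-- bad pairs at the inner point -/
def Sys.TI (S : Sys nc nf) : Finset (Fin nc × Fin nc) :=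
  Finset.univ.filter fun x => x.1 ≠ x.2 ∧ Bad S.dI (S.W x.1) (S.W x.2)

/-- validity -/
structure Sys.Valid (S : Sys nc nf) (r : ℕ) : Prop where
  ha : S.a = 1 ∨ S.a = -1
  hV : ∀ p, 4 * (S.V p).1 = S.a * (S.W p).1 ∧ 4 * (S.V p).2 = S.a * (S.W p).2
  hW : ∀ p p', S.W p = S.W p' → p = p'
  hsep : ∀ f g, f ≠ g →
    (∀ x, S.inc f x = true → 0 ≤ Lf (S.sep f g) (S.cor x) + (S.sep f g).2.2) ∧
    0 < Lf (S.sep f g) (S.z f) + (S.sep f g).2.2 ∧
    (∀ x, S.inc g x = true → Lf (S.sep f g) (S.cor x) + (S.sep f g).2.2 ≤ 0) ∧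
    Lf (S.sep f g) (S.z g) + (S.sep f g).2.2 < 0
  hdeep : ∀ f, 0 < (S.deep f).2.2 ∧
    (∀ x, S.inc f x = true → (S.deep f).2.2 ≤ Lf (S.deep f) (S.cor x)) ∧
    (S.deep f).2.2 < Lf (S.deep f) (S.z f) ∧
    (∀ p, Lf (S.deep f) (S.V p) ≤ (S.deep f).2.2) ∧
    (∀ p, |Lf (S.deep f) (S.V p)| ≤ 4 * (S.deep f).2.2) ∧
    (∀ g, |Lf (S.deep f) (S.z g)| < 4 * (S.deep f).2.2)
  houter : ∀ p, 0 < (S.outer p).2.2 ∧ (∀ p', Lf (S.outer p) (S.W p') ≤ (S.outer p).2.2) ∧
    Lf (S.outer p) (S.W p) = (S.outer p).2.2 ∧ (S.outer p).2.2 < Lf (S.outer p) S.O ∧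
    (∀ p', |Lf (S.outer p) (S.W p')| ≤ 4 * (S.outer p).2.2) ∧
    (∀ f, Lf (S.outer p) (S.z f) < (S.outer p).2.2) ∧
    (∀ f, |Lf (S.outer p) (S.z f)| < 4 * (S.outer p).2.2)
  hR : 0 < S.R ∧ ∀ p, (S.R ≤ |(S.W p).1| ∨ S.R ≤ |(S.W p).2|) ∧ |(S.W p).1| < 4 * S.R ∧
    |(S.W p).2| < 4 * S.R
  hTF : ∀ f, (S.TF f).card ≤ r
  hTO : S.TO.card ≤ r
  hTI : S.TI.card ≤ r

/-- scaled integer points -/
def emb (t : ℝ) (u : ℤ × ℤ) : ℂ := ⟨t * u.1, t * u.2⟩

lemma Dj_emb {ta tx tb ty : ℝ} {ua ux ub uy : ℤ × ℤ} (t₀ c : ℝ) (g : ℤ × ℤ × ℤ)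
    (h1 : 0 ≤ ta / t₀ * (Lf g ua : ℝ) + c) (h2 : 0 < tx / t₀ * (Lf g ux : ℝ) + c)
    (h3 : tb / t₀ * (Lf g ub : ℝ) + c ≤ 0) (h4 : ty / t₀ * (Lf g uy : ℝ) + c < 0)
    (h : emb ta ua ≠ emb tb ub) : Dj (emb ta ua) (emb tx ux) (emb tb ub) (emb ty uy) := by
  have key : ∀ (t : ℝ) (u : ℤ × ℤ), (g.1 : ℝ) / t₀ * (emb t u).re + (g.2.1 : ℝ) / t₀ * (emb t u).im +
      c = t / t₀ * (Lf g u : ℝ) + c := by
    intro t u
    simp only [emb, Lf]
    push_cast
    ring
  apply Dj_of_sep ((g.1 : ℝ) / t₀) ((g.2.1 : ℝ) / t₀) c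
  · rw [key]; exact h1
  · rw [key]; exact h2
  · rw [key]; exact h3
  · rw [key]; exact h4
  · exact h

lemma cp_emb (s t : ℝ) (u v : ℤ × ℤ) : cp (emb s u) (emb t v) = s * t * (cz u v : ℝ) := by
  simp only [cp, emb, cz]
  push_cast
  ring

lemma emb_sub (t : ℝ) (u v : ℤ × ℤ) : emb t u - emb t v = emb t (u - v) := by
  apply Complex.ext
  · simp only [emb, Complex.sub_re, Prod.fst_sub]
    push_cast
    ring
  · simp only [emb, Complex.sub_im, Prod.snd_sub]
    push_cast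
    ring

/-- the classes: outer point, inner point, faces between consecutive polygons -/
abbrev Cl (m nf : ℕ) : Type := Option (Option (Fin m × Fin nf))

namespace Sys

variable (S : Sys nc nf) {r : ℕ}

/-- the scaling factor -/
noncomputable def lam : ℝ := (S.a : ℝ) / 4

variable {S}

lemma lam_abs (hS : S.Valid r) : |S.lam| = 1 / 4 := by
  rcases hS.ha with h | h
  · simp only [lam, h]; norm_num
  · simp only [lam, h]
    rw [abs_of_neg (by norm_num)]
    norm_num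

lemma lam_ne (hS : S.Valid r) : S.lam ≠ 0 := by
  intro h
  have := lam_abs hS
  rw [h, abs_zero] at this
  norm_num at this

lemma lam_pow_ne (hS : S.Valid r) (k : ℕ) : S.lam ^ k ≠ 0 := pow_ne_zero _ (lam_ne hS)

lemma lam_pow_abs (hS : S.Valid r) {k : ℕ} (hk : 1 ≤ k) : |S.lam ^ k| ≤ 1 / 4 := by
  rw [abs_pow, lam_abs hS]
  calc ((1 : ℝ) / 4) ^ k ≤ (1 / 4) ^ 1 := pow_le_pow_of_le_one (by norm_num) (by norm_num) hk
    _ = 1 / 4 := by norm_num

lemma lam_W (hS : S.Valid r) (g : ℤ × ℤ × ℤ) (p : Fin nc) :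
    S.lam * (Lf g (S.W p) : ℝ) = (Lf g (S.V p) : ℝ) := by
  have h := hS.hV p
  have h1 : (4 : ℝ) * ((S.V p).1 : ℝ) = S.a * (S.W p).1 := by exact_mod_cast h.1
  have h2 : (4 : ℝ) * ((S.V p).2 : ℝ) = S.a * (S.W p).2 := by exact_mod_cast h.2
  simp only [lam, Lf]
  push_cast
  linear_combination (-(g.1 : ℝ) / 4) * h1 + (-(g.2.1 : ℝ) / 4) * h2

lemma emb_V (hS : S.Valid r) (k : ℕ) (p : Fin nc) :
    emb (S.lam ^ (k + 1)) (S.W p) = emb (S.lam ^ k) (S.V p) := by
  have h := hS.hV p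
  have h1 : (4 : ℝ) * ((S.V p).1 : ℝ) = S.a * (S.W p).1 := by exact_mod_cast h.1
  have h2 : (4 : ℝ) * ((S.V p).2 : ℝ) = S.a * (S.W p).2 := by exact_mod_cast h.2
  apply Complex.ext
  · simp only [emb]
    rw [pow_succ]
    simp only [lam] at *
    linear_combination (-(S.a / 4 : ℝ) ^ k / 4) * h1
  · simp only [emb]
    rw [pow_succ]
    simp only [lam] at *
    linear_combination (-(S.a / 4 : ℝ) ^ k / 4) * h2

lemma small (hS : S.Valid r) {k : ℕ} (hk : 1 ≤ k) {N κ : ℤ} (h : |N| ≤ 4 * κ) :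
    S.lam ^ k * (N : ℝ) ≤ κ := by
  have h1 : |S.lam ^ k * (N : ℝ)| ≤ 1 / 4 * (4 * κ) := by
    rw [abs_mul]
    apply mul_le_mul (lam_pow_abs hS hk) _ (abs_nonneg _) (by norm_num)
    exact_mod_cast h
  have := le_abs_self (S.lam ^ k * (N : ℝ))
  linarith

lemma small' (hS : S.Valid r) {k : ℕ} (hk : 1 ≤ k) {N κ : ℤ} (h : |N| < 4 * κ) :
    S.lam ^ k * (N : ℝ) < κ := by
  have h1 : |S.lam ^ k * (N : ℝ)| < κ := by
    rw [abs_mul]
    have h2 : |S.lam ^ k| * |(N : ℝ)| ≤ 1 / 4 * |(N : ℝ)| :=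
      mul_le_mul_of_nonneg_right (lam_pow_abs hS hk) (abs_nonneg _)
    have h3 : |(N : ℝ)| < 4 * κ := by exact_mod_cast h
    linarith
  have := le_abs_self (S.lam ^ k * (N : ℝ))
  linarith

lemma hub_deep (hS : S.Valid r) (f : Fin nf) (p : Fin nc) {k : ℕ} (hk : 1 ≤ k) :
    S.lam ^ k * (Lf (S.deep f) (S.W p) : ℝ) ≤ (S.deep f).2.2 := by
  obtain ⟨k, rfl⟩ : ∃ k', k = k' + 1 := ⟨k - 1, by omega⟩
  rw [pow_succ, mul_assoc, lam_W hS]
  rcases Nat.eq_zero_or_pos k with rfl | hk'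
  · rw [pow_zero, one_mul]
    exact_mod_cast (hS.hdeep f).2.2.2.1 p
  · exact small hS hk' ((hS.hdeep f).2.2.2.2.1 p)

lemma cen_deep (hS : S.Valid r) (f g : Fin nf) {k : ℕ} (hk : 1 ≤ k) :
    S.lam ^ k * (Lf (S.deep f) (S.z g) : ℝ) < (S.deep f).2.2 :=
  small' hS hk ((hS.hdeep f).2.2.2.2.2 g)

lemma hub_outer (hS : S.Valid r) (p p' : Fin nc) (k : ℕ) :
    S.lam ^ k * (Lf (S.outer p) (S.W p') : ℝ) ≤ (S.outer p).2.2 := by
  rcases Nat.eq_zero_or_pos k with rfl | hk'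
  · rw [pow_zero, one_mul]
    exact_mod_cast (hS.houter p).2.1 p'
  · exact small hS hk' ((hS.houter p).2.2.2.2.1 p')

lemma cen_outer (hS : S.Valid r) (p : Fin nc) (f : Fin nf) (k : ℕ) :
    S.lam ^ k * (Lf (S.outer p) (S.z f) : ℝ) < (S.outer p).2.2 := by
  rcases Nat.eq_zero_or_pos k with rfl | hk'
  · rw [pow_zero, one_mul]
    exact_mod_cast (hS.houter p).2.2.2.2.2.1 f
  · exact small' hS hk' ((hS.houter p).2.2.2.2.2.2 f)

variable (S)

/-- the hubs -/
noncomputable def hub (m : ℕ) (x : Fin (m + 1) × Fin nc) : ℂ := emb (S.lam ^ (x.1 : ℕ)) (S.W x.2)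

/-- the centres -/
noncomputable def cen (m : ℕ) : Cl m nf → ℂ
  | none => emb 1 S.O
  | some none => emb 1 (0, 0)
  | some (some x) => emb (S.lam ^ (x.1 : ℕ)) (S.z x.2)

/-- the directions -/
noncomputable def dir (m : ℕ) : Cl m nf → ℂ
  | none => emb 1 S.dO
  | some none => emb (S.lam ^ m) S.dI
  | some (some x) => emb (S.lam ^ (x.1 : ℕ)) (S.d x.2)

/-- the incidence relation -/
def I (m : ℕ) : Cl m nf → Fin (m + 1) × Fin nc → Prop
  | none, x => x.1 = 0
  | some none, x => x.1 = Fin.last m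
  | some (some y), x => (x.1 = y.1.castSucc ∧ S.out y.2 x.2 = true) ∨
      (x.1 = y.1.succ ∧ S.inn y.2 x.2 = true)

/-- a corner of an annulus as a hub -/
def lft (m : ℕ) (j : Fin m) (x : Bool × Fin nc) : Fin (m + 1) × Fin nc :=
  (if x.1 then j.succ else j.castSucc, x.2)

/-- the pairs that may cross -/
def T (m : ℕ) : Cl m nf → Finset ((Fin (m + 1) × Fin nc) × (Fin (m + 1) × Fin nc))
  | none => S.TO.image fun x => ((0, x.1), (0, x.2))
  | some none => S.TI.image fun x => ((Fin.last m, x.1), (Fin.last m, x.2))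
  | some (some y) => (S.TF y.2).image fun x => (lft m y.1 x.1, lft m y.1 x.2)

variable {S}

lemma T_card (hS : S.Valid r) (m : ℕ) (c : Cl m nf) : (S.T m c).card ≤ r := by
  match c with
  | none => exact Finset.card_image_le.trans hS.hTO
  | some none => exact Finset.card_image_le.trans hS.hTI
  | some (some y) => exact Finset.card_image_le.trans (hS.hTF y.2)

lemma hub_lift (hS : S.Valid r) (m : ℕ) (j : Fin m) (x : Bool × Fin nc) :
    S.hub m (lft m j x) = emb (S.lam ^ (j : ℕ)) (S.cor x) := by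
  obtain ⟨b, p⟩ := x
  cases b
  · simp [hub, lft, cor]
  · simp only [hub, lft, cor, if_true, Fin.val_succ]
    exact emb_V hS _ _

lemma I_lift {m : ℕ} {y : Fin m × Fin nf} {x : Fin (m + 1) × Fin nc}
    (h : S.I m (some (some y)) x) : ∃ x', x = lft m y.1 x' ∧ S.inc y.2 x' = true := by
  rcases h with ⟨h1, h2⟩ | ⟨h1, h2⟩
  · exact ⟨(false, x.2), Prod.ext h1 rfl, h2⟩
  · exact ⟨(true, x.2), Prod.ext h1 rfl, h2⟩

lemma hub_inj (hS : S.Valid r) (m : ℕ) : Function.Injective (S.hub m) := by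
  have key : ∀ (j k : ℕ) (p p' : Fin nc), 1 ≤ k →
      emb (S.lam ^ j) (S.W p) ≠ emb (S.lam ^ (j + k)) (S.W p') := by
    intro j k p p' hk h
    have hx := congrArg Complex.re h
    have hy := congrArg Complex.im h
    simp only [emb] at hx hy
    rw [pow_add, mul_assoc] at hx hy
    have hx' := mul_left_cancel₀ (lam_pow_ne hS j) hx
    have hy' := mul_left_cancel₀ (lam_pow_ne hS j) hy
    obtain ⟨hR0, hR⟩ := hS.hR
    have h1 : ∀ N : ℤ, |N| < 4 * S.R → |S.lam ^ k * (N : ℝ)| < S.R := by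
      intro N hN
      rw [abs_mul]
      have h2 : |S.lam ^ k| * |(N : ℝ)| ≤ 1 / 4 * |(N : ℝ)| :=
        mul_le_mul_of_nonneg_right (lam_pow_abs hS hk) (abs_nonneg _)
      have h3 : |(N : ℝ)| < 4 * S.R := by exact_mod_cast hN
      linarith
    rcases (hR p).1 with h2 | h2
    · have h3 := h1 _ (hR p').2.1
      rw [← hx'] at h3
      have h4 : (S.R : ℝ) ≤ |((S.W p).1 : ℝ)| := by exact_mod_cast h2
      linarith
    · have h3 := h1 _ (hR p').2.2
      rw [← hy'] at h3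
      have h4 : (S.R : ℝ) ≤ |((S.W p).2 : ℝ)| := by exact_mod_cast h2
      linarith
  rintro ⟨j, p⟩ ⟨j', p'⟩ h
  simp only [hub] at h
  rcases lt_trichotomy (j : ℕ) (j' : ℕ) with hlt | heq | hlt
  · exfalso
    obtain ⟨k, hk, e⟩ : ∃ k, 1 ≤ k ∧ (j' : ℕ) = j + k := ⟨j' - j, by omega, by omega⟩
    rw [e] at h
    exact key _ _ _ _ hk h
  · have hj : j = j' := Fin.ext heq
    subst hj
    have hx := congrArg Complex.re h
    have hy := congrArg Complex.im h
    simp only [emb] at hx hy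
    have hx' := mul_left_cancel₀ (lam_pow_ne hS j) hx
    have hy' := mul_left_cancel₀ (lam_pow_ne hS j) hy
    have : S.W p = S.W p' := Prod.ext (by exact_mod_cast hx') (by exact_mod_cast hy')
    rw [hS.hW _ _ this]
  · exfalso
    obtain ⟨k, hk, e⟩ : ∃ k, 1 ≤ k ∧ (j : ℕ) = j' + k := ⟨j - j', by omega, by omega⟩
    rw [e] at h
    exact key _ _ _ _ hk h.symm

/-- planarity -/
lemma H1 (hS : S.Valid r) (m : ℕ) (c c' : Cl m nf) (h h' : Fin (m + 1) × Fin nc) (hc : c ≠ c')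
    (hh : h ≠ h') (hI : S.I m c h) (hI' : S.I m c' h') :
    Dj (S.hub m h) (S.cen m c) (S.hub m h') (S.cen m c') := by
  -- outer point against a hub
  have outer1 : ∀ (p : Fin nc) (h' : Fin (m + 1) × Fin nc) (y : ℂ) (t : ℝ) (u : ℤ × ℤ),
      S.hub m (0, p) ≠ S.hub m h' → t * (Lf (S.outer p) u : ℝ) < (S.outer p).2.2 →
      Dj (S.hub m (0, p)) (emb 1 S.O) (S.hub m h') (emb t u) := by
    intro p h' y t u hne ht
    apply Dj_emb 1 (-((S.outer p).2.2 : ℝ)) (S.outer p)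
    · have := (hS.houter p).2.2.1
      simp only [Fin.val_zero, pow_zero]
      rw [this]
      simp
    · have := (hS.houter p).2.2.2.1
      have h2 : ((S.outer p).2.2 : ℝ) < (Lf (S.outer p) S.O : ℝ) := by exact_mod_cast this
      linarith
    · have := hub_outer hS p h'.2 h'.1
      linarith
    · rw [div_one]
      linarith
    · exact hne
  -- face against something deeper
  have deep1 : ∀ (y : Fin m × Fin nf) (h h' : Fin (m + 1) × Fin nc) (k : ℕ) (t : ℝ) (u : ℤ × ℤ),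
      S.I m (some (some y)) h → (y.1 : ℕ) + 1 ≤ h'.1 → S.hub m h ≠ S.hub m h' →
      t / S.lam ^ (y.1 : ℕ) * (Lf (S.deep y.2) u : ℝ) < (S.deep y.2).2.2 →
      Dj (S.hub m h) (S.cen m (some (some y))) (S.hub m h') (emb t u) := by
    intro y h h' k t u hI hl hne ht
    obtain ⟨x, rfl, hx⟩ := I_lift hI
    rw [hub_lift hS] at hne ⊢
    have e0 : S.lam ^ (y.1 : ℕ) / S.lam ^ (y.1 : ℕ) = 1 := div_self (lam_pow_ne hS _)
    apply Dj_emb (S.lam ^ (y.1 : ℕ)) (-((S.deep y.2).2.2 : ℝ)) (S.deep y.2)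
    · rw [e0, one_mul]
      have := (hS.hdeep y.2).2.1 x hx
      have h2 : ((S.deep y.2).2.2 : ℝ) ≤ (Lf (S.deep y.2) (S.cor x) : ℝ) := by exact_mod_cast this
      linarith
    · rw [e0, one_mul]
      have := (hS.hdeep y.2).2.2.1
      have h2 : ((S.deep y.2).2.2 : ℝ) < (Lf (S.deep y.2) (S.z y.2) : ℝ) := by exact_mod_cast this
      linarith
    · obtain ⟨k, hk, e⟩ : ∃ k, 1 ≤ k ∧ (h'.1 : ℕ) = (y.1 : ℕ) + k :=
        ⟨h'.1 - y.1, by omega, by omega⟩
      rw [e, pow_add, mul_div_cancel_left₀ _ (lam_pow_ne hS _)]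
      have := hub_deep hS y.2 h'.2 hk
      linarith
    · linarith
    · exact hne
  have hne : S.hub m h ≠ S.hub m h' := fun e => hh (hub_inj hS m e)
  match c, c', hc, hI, hI' with
  | none, none, hc, hI, hI' => exact absurd rfl hc
  | none, some none, hc, hI, hI' =>
    obtain ⟨l, p⟩ := h
    have hl : l = 0 := hI
    subst hl
    apply outer1 p h' 0 1 (0, 0) hne
    have := (hS.houter p).1
    have h2 : (0 : ℝ) < (S.outer p).2.2 := by exact_mod_cast this
    simpa [Lf] using h2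
  | none, some (some y), hc, hI, hI' =>
    obtain ⟨l, p⟩ := h
    have hl : l = 0 := hI
    subst hl
    exact outer1 p h' 0 _ (S.z y.2) hne (cen_outer hS p y.2 y.1)
  | some none, none, hc, hI, hI' =>
    obtain ⟨l, p⟩ := h'
    have hl : l = 0 := hI'
    subst hl
    apply Dj.symm
    apply outer1 p h 0 1 (0, 0) hne.symm
    have := (hS.houter p).1
    have h2 : (0 : ℝ) < (S.outer p).2.2 := by exact_mod_cast this
    simpa [Lf] using h2
  | some none, some none, hc, hI, hI' => exact absurd rfl hc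
  | some none, some (some y), hc, hI, hI' =>
    apply Dj.symm
    have hl : h.1 = Fin.last m := hI
    apply deep1 y h' h 0 1 (0, 0) hI' _ hne.symm
    · have := (hS.hdeep y.2).1
      have h2 : (0 : ℝ) < (S.deep y.2).2.2 := by exact_mod_cast this
      simpa [Lf] using h2
    · rw [hl, Fin.val_last]; exact y.1.2
  | some (some y), none, hc, hI, hI' =>
    obtain ⟨l, p⟩ := h'
    have hl : l = 0 := hI'
    subst hl
    apply Dj.symm
    exact outer1 p h 0 _ (S.z y.2) hne.symm (cen_outer hS p y.2 y.1)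
  | some (some y), some none, hc, hI, hI' =>
    have hl : h'.1 = Fin.last m := hI'
    apply deep1 y h h' 0 1 (0, 0) hI _ hne
    · have := (hS.hdeep y.2).1
      have h2 : (0 : ℝ) < (S.deep y.2).2.2 := by exact_mod_cast this
      simpa [Lf] using h2
    · rw [hl, Fin.val_last]; exact y.1.2
  | some (some y), some (some y'), hc, hI, hI' =>
    have lev : ∀ (y : Fin m × Fin nf) (h : Fin (m + 1) × Fin nc), S.I m (some (some y)) h →
        (y.1 : ℕ) ≤ h.1 := by
      rintro y h (⟨e, -⟩ | ⟨e, -⟩)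
      · rw [e]; simp
      · rw [e]; simp
    rcases lt_trichotomy (y.1 : ℕ) (y'.1 : ℕ) with hlt | heq | hlt
    · apply deep1 y h h' 0 _ (S.z y'.2) hI _ hne
      · obtain ⟨k, hk, e⟩ : ∃ k, 1 ≤ k ∧ (y'.1 : ℕ) = (y.1 : ℕ) + k :=
          ⟨y'.1 - y.1, by omega, by omega⟩
        rw [e, pow_add, mul_div_cancel_left₀ _ (lam_pow_ne hS _)]
        exact cen_deep hS y.2 y'.2 hk
      · have := lev y' h' hI'
        omega
    · have hj : y.1 = y'.1 := Fin.ext heq
      have hf : y.2 ≠ y'.2 := fun e => hc (by rw [Prod.ext hj e])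
      obtain ⟨x, rfl, hx⟩ := I_lift hI
      obtain ⟨x', rfl, hx'⟩ := I_lift hI'
      have hs := hS.hsep y.2 y'.2 hf
      rw [hub_lift hS, hub_lift hS] at hne ⊢
      have e0 : S.lam ^ (y.1 : ℕ) / S.lam ^ (y.1 : ℕ) = 1 := div_self (lam_pow_ne hS _)
      have e1 : S.lam ^ (y'.1 : ℕ) / S.lam ^ (y.1 : ℕ) = 1 := by
        rw [← hj]; exact div_self (lam_pow_ne hS _)
      apply Dj_emb (S.lam ^ (y.1 : ℕ)) ((S.sep y.2 y'.2).2.2 : ℝ) (S.sep y.2 y'.2)
      · rw [e0, one_mul]; exact_mod_cast hs.1 x hx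
      · rw [e0, one_mul]; exact_mod_cast hs.2.1
      · rw [e1, one_mul]; exact_mod_cast hs.2.2.1 x' hx'
      · rw [e1, one_mul]; exact_mod_cast hs.2.2.2
      · exact hne
    · apply Dj.symm
      apply deep1 y' h' h 0 _ (S.z y.2) hI' _ hne.symm
      · obtain ⟨k, hk, e⟩ : ∃ k, 1 ≤ k ∧ (y.1 : ℕ) = (y'.1 : ℕ) + k :=
          ⟨y.1 - y'.1, by omega, by omega⟩
        rw [e, pow_add, mul_div_cancel_left₀ _ (lam_pow_ne hS _)]
        exact cen_deep hS y'.2 y.2 hk
      · have := lev y h hI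
        omega

/-- the signs at the clusters -/
lemma H3 (hS : S.Valid r) (m : ℕ) (c : Cl m nf) (h h' : Fin (m + 1) × Fin nc)
    (hI : S.I m c h) (hI' : S.I m c h') (hh : h ≠ h') (hT : (h, h') ∉ S.T m c) :
    cp (S.dir m c) (S.hub m h - S.cen m c) * cp (S.dir m c) (S.hub m h' - S.cen m c) < 0 ∨
    cp (S.dir m c) (S.hub m h - S.cen m c) * cp (S.hub m h - S.cen m c)
      (S.hub m h' - S.cen m c) < 0 := by
  have key : ∀ (t : ℝ) (d u v : ℤ × ℤ), t ≠ 0 → ¬ Bad d u v →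
      cp (emb t d) (emb t u) * cp (emb t d) (emb t v) < 0 ∨
      cp (emb t d) (emb t u) * cp (emb t u) (emb t v) < 0 := by
    intro t d u v ht hb
    have ht4 : 0 < t ^ 4 := by positivity
    simp only [Bad, not_not] at hb
    rcases hb with hb | hb
    · left
      rw [cp_emb, cp_emb]
      have h1 : ((cz d u : ℝ) * (cz d v : ℝ)) < 0 := by exact_mod_cast hb
      calc t * t * (cz d u : ℝ) * (t * t * (cz d v : ℝ)) = t ^ 4 * ((cz d u : ℝ) * (cz d v : ℝ)) := by
            ring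
        _ < 0 := mul_neg_of_pos_of_neg ht4 h1
    · right
      rw [cp_emb, cp_emb]
      have h1 : ((cz d u : ℝ) * (cz u v : ℝ)) < 0 := by exact_mod_cast hb
      calc t * t * (cz d u : ℝ) * (t * t * (cz u v : ℝ)) = t ^ 4 * ((cz d u : ℝ) * (cz u v : ℝ)) := by
            ring
        _ < 0 := mul_neg_of_pos_of_neg ht4 h1
  match c, hI, hI', hT with
  | none, hI, hI', hT =>
    obtain ⟨l, p⟩ := h
    obtain ⟨l', p'⟩ := h'
    have hl : l = 0 := hI
    have hl' : l' = 0 := hI'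
    subst hl
    subst hl'
    have e : ∀ p : Fin nc, S.hub m (0, p) - S.cen m none = emb 1 (S.W p - S.O) := by
      intro p
      rw [← emb_sub]
      simp [hub, cen]
    rw [e, e]
    apply key 1 _ _ _ one_ne_zero
    intro hb
    apply hT
    exact Finset.mem_image.2 ⟨(p, p'), Finset.mem_filter.2 ⟨Finset.mem_univ _,
      fun e => hh (by rw [show p = p' from e]), hb⟩, rfl⟩
  | some none, hI, hI', hT =>
    obtain ⟨l, p⟩ := h
    obtain ⟨l', p'⟩ := h'
    have hl : l = Fin.last m := hI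
    have hl' : l' = Fin.last m := hI'
    subst hl
    subst hl'
    have e : ∀ p : Fin nc, S.hub m (Fin.last m, p) - S.cen m (some none) =
        emb (S.lam ^ m) (S.W p) := by
      intro p
      have : emb 1 (0, 0) = 0 := by apply Complex.ext <;> simp [emb]
      simp only [hub, cen, this, sub_zero, Fin.val_last]
    rw [e, e]
    apply key _ _ _ _ (lam_pow_ne hS m)
    intro hb
    apply hT
    exact Finset.mem_image.2 ⟨(p, p'), Finset.mem_filter.2 ⟨Finset.mem_univ _,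
      fun e => hh (by rw [show p = p' from e]), hb⟩, rfl⟩
  | some (some y), hI, hI', hT =>
    obtain ⟨x, rfl, hx⟩ := I_lift hI
    obtain ⟨x', rfl, hx'⟩ := I_lift hI'
    have e : ∀ x : Bool × Fin nc, S.hub m (lft m y.1 x) - S.cen m (some (some y)) =
        emb (S.lam ^ (y.1 : ℕ)) (S.cor x - S.z y.2) := by
      intro x
      rw [← emb_sub, hub_lift hS]
      rfl
    rw [e, e]
    apply key _ _ _ _ (lam_pow_ne hS _)
    intro hb
    apply hT
    exact Finset.mem_image.2 ⟨(x, x'), Finset.mem_filter.2 ⟨Finset.mem_univ _, hx, hx',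
      fun e => hh (by rw [show x = x' from e]), hb⟩, rfl⟩

/-- **The upper bound.** -/
theorem upper (hS : S.Valid r) (m : ℕ) {n : ℕ} (hn : 0 < n) (e : Fin n → Cl m nf)
    (he : Function.Injective e) (q : ℕ) :
    crossingNumber (blowG hn (fun c => S.I m (e c)) q) ≤ r * ∑ y ∈ Finset.range q, y / n := by
  apply blow_upper hn (fun c => S.I m (e c)) q r (S.hub m) (fun c => S.cen m (e c))
    (fun c => S.dir m (e c)) (fun c => S.T m (e c))
  · intro c c' h h' hc hh hI hI'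
    exact H1 hS m _ _ h h' (fun e' => hc (he e')) hh hI hI'
  · intro c h h' hI hI' hh hT
    exact H3 hS m _ h h' hI hI' hh hT
  · intro c
    exact T_card hS m _

end Sys

end Pool.Agent.Y899.KP
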